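import Mathlib

/-!
Definitions for the Stack Model of inhomogeneous bond percolation on
`Z^d = Z^(d-1) x Z`.  Throughout, `m = d - 1`.
-/

set_option autoImplicit false

open MeasureTheory ProbabilityTheory

namespace Pool.Agent.Lib.MP_c59c01_pr

/-- Vertices of `Z^(m+1) = Z^m x Z`. -/
abbrev Vtx (m : ℕ) : Type := (Fin m → ℤ) × ℤ

/-- The `l^1` norm on `Z^m`, so that `l1 x` is the graph distance from `0` to `x`. -/
def l1 {m : ℕ} (x : Fin m → ℤ) : ℕ := ∑ i, (x i).natAbs

/-- The nearest-neighbour graph on `Z^m x Z`: two vertices are adjacent iff their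
`l^1` distance is `1`. -/
def lattice (m : ℕ) : SimpleGraph (Vtx m) where
  Adj x y := l1 (x.1 - y.1) + (x.2 - y.2).natAbs = 1
  symm := ⟨fun x y h => by
    have h1 : l1 (y.1 - x.1) = l1 (x.1 - y.1) := by
      unfold l1
      refine Finset.sum_congr rfl fun i _ => ?_
      simp only [Pi.sub_apply]
      omega
    have h2 : (y.2 - x.2).natAbs = (x.2 - y.2).natAbs := by omega
    rw [h1, h2]; exact h⟩
  loopless := ⟨fun x h => by simp [l1] at h⟩

/-- The box `B(a,r) = {x : l1 x ≤ r} x [a - r, a + r]`. -/
def box (m : ℕ) (a : ℤ) (r : ℕ) : Set (Vtx m) :=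
  {v | l1 v.1 ≤ r ∧ a - r ≤ v.2 ∧ v.2 ≤ a + r}

/-- The centres `Z(n)` of the stacked boxes in the environment `X`. -/
noncomputable def center (X : ℤ → ℕ) (n : ℤ) : ℤ :=
  if 0 < n then (X 0 : ℤ) + 2 * ∑ i ∈ Finset.Ioo 0 n, (X i : ℤ) + X n
  else if n < 0 then -(X 0 : ℤ) - 2 * ∑ i ∈ Finset.Ioo n 0, (X i : ℤ) - X n
  else 0

/-- The reinforced region `R = ⋃ n, B(Z(n), X n)`. -/
def region (m : ℕ) (X : ℤ → ℕ) : Set (Vtx m) := ⋃ n : ℤ, box m (center X n) (X n)

/-- Independent bond percolation: the pair `e` is declared open (`true`) with probability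
`prob e`, independently over `e` (only the pairs that are lattice edges matter below). -/
noncomputable def percMeasure {m : ℕ} (prob : Sym2 (Vtx m) → unitInterval) :
    Measure (Sym2 (Vtx m) → Bool) :=
  Measure.infinitePi fun e => bernoulliMeasure true false (prob e)

/-- The graph of open lattice edges of the configuration `ω`. -/
def openGraph {m : ℕ} (ω : Sym2 (Vtx m) → Bool) : SimpleGraph (Vtx m) :=
  lattice m ⊓ SimpleGraph.fromEdgeSet {e | ω e = true}

/-- The probability that the open cluster of the origin is infinite. -/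
noncomputable def percProb {m : ℕ} (prob : Sym2 (Vtx m) → unitInterval) : ENNReal :=
  percMeasure prob {ω | Set.Infinite {y | (openGraph ω).Reachable 0 y}}

open Classical in
/-- The quenched percolation probability `θ^Λ(p,q)` of the Stack Model in the environment `X`:
edges with both endpoints in `R` are open with probability `q`, all others with probability `p`. -/
noncomputable def theta (m : ℕ) (X : ℤ → ℕ) (p q : unitInterval) : ENNReal :=
  percProb (m := m) fun e => if ∀ v ∈ e, v ∈ region m X then q else p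

/-- The critical probability `p_c(Z^(m+1)) = sup {p ∈ [0,1] : θ(p) = 0}` of homogeneous bond
percolation. -/
noncomputable def pc (m : ℕ) : ℝ :=
  sSup {r : ℝ | ∃ p : unitInterval, (p : ℝ) = r ∧ percProb (m := m) (fun _ => p) = 0}

end Pool.Agent.Lib.MP_c59c01_pr
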