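import Mathlib
import Pool.Agent.Lib.MP_c59c01_pr.Defs

-- part Pool.Agent.Lib.MP_c59c01_pr.Paths
section

/-!
Abstract lemmas: path counting and independence for product Bernoulli measures.
-/

set_option autoImplicit false

open MeasureTheory ProbabilityTheory Set
open scoped ENNReal

namespace Pool.Agent.Lib.MP_c59c01_pr

section Product

variable {E : Type}

/-- The product Bernoulli measure. -/
noncomputable def PB (prob : E → unitInterval) : Measure (E → Bool) :=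
  Measure.infinitePi fun e => bernoulliMeasure true false (prob e)

instance (prob : E → unitInterval) : IsProbabilityMeasure (PB prob) := by
  unfold PB; infer_instance

/-- All coordinates in `F` take the value `b`. -/
def allEq (F : Finset E) (b : Bool) : Set (E → Bool) := {ω | ∀ e ∈ F, ω e = b}

lemma allEq_eq_pi (F : Finset E) (b : Bool) :
    allEq F b = Set.pi (F : Set E) (fun _ => ({b} : Set Bool)) := by
  ext ω; simp [allEq]

lemma PB_allEq_true (prob : E → unitInterval) (F : Finset E) :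
    PB prob (allEq F true) = ∏ e ∈ F, (unitInterval.toNNReal (prob e) : ℝ≥0∞) := by
  rw [allEq_eq_pi, PB, Measure.infinitePi_pi _ (fun _ _ => MeasurableSet.of_discrete)]
  refine Finset.prod_congr rfl fun e _ => ?_
  exact bernoulliMeasure_apply_of_mem_of_notMem _ MeasurableSet.of_discrete (by simp) (by simp)

lemma PB_allEq_false (prob : E → unitInterval) (F : Finset E) :
    PB prob (allEq F false) =
      ∏ e ∈ F, (unitInterval.toNNReal (unitInterval.symm (prob e)) : ℝ≥0∞) := by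
  rw [allEq_eq_pi, PB, Measure.infinitePi_pi _ (fun _ _ => MeasurableSet.of_discrete)]
  refine Finset.prod_congr rfl fun e _ => ?_
  exact bernoulliMeasure_apply_of_notMem_of_mem _ MeasurableSet.of_discrete (by simp) (by simp)

/-- The sigma-algebra generated by the coordinates in `S`. -/
@[reducible] def coordAlg (S : Set E) : MeasurableSpace (E → Bool) :=
  ⨆ e ∈ S, MeasurableSpace.comap (fun ω : E → Bool => ω e) inferInstance

lemma measurableSet_allEq_coordAlg {S : Set E} {F : Finset E} (hF : ∀ e ∈ F, e ∈ S) (b : Bool) :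
    MeasurableSet[coordAlg S] (allEq F b) := by
  have : allEq F b = ⋂ e ∈ F, {ω : E → Bool | ω e = b} := by
    ext ω; simp [allEq]
  rw [this]
  refine Finset.measurableSet_biInter F fun e he => ?_
  have h1 : MeasurableSet[MeasurableSpace.comap (fun ω : E → Bool => ω e) inferInstance]
      {ω : E → Bool | ω e = b} := ⟨{b}, MeasurableSet.of_discrete, by ext ω; simp⟩
  have h2 : MeasurableSpace.comap (fun ω : E → Bool => ω e) inferInstance ≤ coordAlg S :=
    le_iSup₂_of_le (f := fun e (_ : e ∈ S) =>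
      MeasurableSpace.comap (fun ω : E → Bool => ω e) inferInstance) e (hF e he) le_rfl
  exact h2 _ h1

lemma measurableSet_allEq (F : Finset E) (b : Bool) : MeasurableSet (allEq F b) := by
  rw [allEq_eq_pi]
  exact MeasurableSet.pi F.countable_toSet fun _ _ => MeasurableSet.of_discrete

lemma indep_coordAlg (prob : E → unitInterval) {S T : Set E} (h : Disjoint S T) :
    Indep (coordAlg S) (coordAlg T) (PB prob) := by
  have hi : iIndepFun (fun (e : E) (ω : E → Bool) => ω e) (PB prob) :=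
    iIndepFun_infinitePi (P := fun e => bernoulliMeasure true false (prob e))
      (X := fun _ b => b) (fun _ => measurable_id)
  exact indep_iSup_of_disjoint (fun e => (measurable_pi_apply e).comap_le) hi.iIndep h

/-- An event depending only on coordinates outside `S` is independent of `F ⊆ S` being open. -/
lemma PB_inter_allEq_true (prob : E → unitInterval) {S : Set E} {p : unitInterval}
    (hS : ∀ e ∈ S, prob e = p) {B : Set (E → Bool)} (hB : MeasurableSet[coordAlg Sᶜ] B)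
    (F : Finset E) (hF : ∀ e ∈ F, e ∈ S) :
    PB prob (B ∩ allEq F true) = PB prob B * (unitInterval.toNNReal p : ℝ≥0∞) ^ F.card := by
  have h := (Indep_iff _ _ _).1 (indep_coordAlg prob (S := Sᶜ) (T := S) disjoint_compl_left)
    B (allEq F true) hB (measurableSet_allEq_coordAlg hF true)
  rw [h, PB_allEq_true, Finset.prod_congr rfl (g := fun _ => (unitInterval.toNNReal p : ℝ≥0∞))
    (fun e he => by rw [hS e (hF e he)]), Finset.prod_const]

/-- Second Borel-Cantelli for closing disjoint finite sets of coordinates. -/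
lemma PB_iInter_compl_allEq_false (prob : E → unitInterval) (Q : ℕ → Finset E)
    (hQ : Pairwise fun i j => Disjoint (Q i) (Q j)) {δ : ℝ≥0∞} (hδ : δ ≠ 0)
    (hle : ∀ j, δ ≤ PB prob (allEq (Q j) false)) :
    PB prob (⋂ j, (allEq (Q j) false)ᶜ) = 0 := by
  classical
  have hind : iIndepSet (fun j => allEq (Q j) false) (PB prob) := by
    rw [iIndepSet_iff_meas_biInter (fun j => measurableSet_allEq _ _)]
    intro s
    have : (⋂ i ∈ s, allEq (Q i) false) = allEq (s.biUnion Q) false := by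
      ext ω
      simp only [allEq, mem_iInter, mem_ofPred_eq, Finset.mem_biUnion]
      constructor
      · rintro h e ⟨i, hi, he⟩; exact h i hi e he
      · intro h i hi e he; exact h e ⟨i, hi, he⟩
    rw [this, PB_allEq_false, Finset.prod_biUnion (fun i _ j _ hij => hQ hij)]
    exact Finset.prod_congr rfl fun i _ => (PB_allEq_false prob _).symm
  have hsum : ∑' n, PB prob (allEq (Q n) false) = ∞ := by
    refine top_unique ?_
    calc (⊤ : ℝ≥0∞) = ∑' _ : ℕ, δ := (ENNReal.tsum_const_eq_top_of_ne_zero hδ).symm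
      _ ≤ _ := ENNReal.tsum_le_tsum hle
  have h1 := measure_limsup_eq_one (fun j => measurableSet_allEq (Q j) false) hind hsum
  have hm : MeasurableSet (Filter.limsup (fun j => allEq (Q j) false) Filter.atTop) :=
    MeasurableSet.measurableSet_limsup fun j => measurableSet_allEq _ _
  have h2 := (prob_compl_eq_zero_iff hm).2 h1
  refine measure_mono_null ?_ h2
  intro ω hω hlim
  rw [Filter.mem_limsup_iff_frequently_mem] at hlim
  obtain ⟨j, hj⟩ := hlim.exists
  exact (mem_iInter.1 hω j) hj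

end Product

section Paths

variable {W : Type} (G : SimpleGraph W)

/-- There is a trail from `x` of length at least `l`, all of whose edges are open, lie in `S`
and avoid `F`. -/
def longTrail (S : Set (Sym2 W)) (F : Finset (Sym2 W)) (x : W) (l : ℕ) :
    Set (Sym2 W → Bool) :=
  {ω | ∃ (y : W) (w : G.Walk x y), l ≤ w.length ∧ w.IsTrail ∧
    ∀ e ∈ w.edges, e ∈ S ∧ e ∉ F ∧ ω e = true}

lemma measure_longTrail_le (P : Measure (Sym2 W → Bool)) (N : W → Finset W) (D : ℕ)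
    (hN : ∀ x y, G.Adj x y → y ∈ N x) (hD : ∀ x, (N x).card ≤ D)
    (S : Set (Sym2 W)) (B : Set (Sym2 W → Bool)) (c p : ℝ≥0∞)
    (hB : ∀ F : Finset (Sym2 W), (∀ e ∈ F, e ∈ S) → P (B ∩ allEq F true) ≤ c * p ^ F.card)
    (l : ℕ) : ∀ (F : Finset (Sym2 W)) (x : W), (∀ e ∈ F, e ∈ S) →
      P (B ∩ allEq F true ∩ longTrail G S F x l) ≤ c * p ^ F.card * (D * p) ^ l := by
  classical
  induction l with
  | zero =>
    intro F x hF
    simpa using (measure_mono inter_subset_left).trans (hB F hF)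
  | succ l ih =>
    intro F x hF
    have hsub : B ∩ allEq F true ∩ longTrail G S F x (l + 1) ⊆
        ⋃ y ∈ (N x).filter (fun y => s(x, y) ∈ S ∧ s(x, y) ∉ F),
          B ∩ allEq (insert s(x, y) F) true ∩ longTrail G S (insert s(x, y) F) y l := by
      rintro ω ⟨⟨hωB, hωF⟩, z, w, hl, htr, hw⟩
      cases w with
      | nil => simp at hl
      | @cons _ y _ hxy w' =>
        simp only [SimpleGraph.Walk.edges_cons, List.mem_cons, forall_eq_or_imp] at hw
        rw [SimpleGraph.Walk.isTrail_cons] at htr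
        simp only [SimpleGraph.Walk.length_cons] at hl
        simp only [mem_iUnion, Finset.mem_filter]
        refine ⟨y, ⟨hN x y hxy, hw.1.1, hw.1.2.1⟩, ⟨hωB, ?_⟩, z, w', by omega, htr.1, ?_⟩
        · intro e he
          rcases Finset.mem_insert.1 he with rfl | he
          · exact hw.1.2.2
          · exact hωF e he
        · intro e he
          refine ⟨(hw.2 e he).1, ?_, (hw.2 e he).2.2⟩
          intro h
          rcases Finset.mem_insert.1 h with rfl | h
          · exact htr.2 he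
          · exact (hw.2 e he).2.1 h
    refine (measure_mono hsub).trans ((measure_biUnion_finset_le _ _).trans ?_)
    calc ∑ y ∈ (N x).filter (fun y => s(x, y) ∈ S ∧ s(x, y) ∉ F),
          P (B ∩ allEq (insert s(x, y) F) true ∩ longTrail G S (insert s(x, y) F) y l)
        ≤ ∑ y ∈ (N x).filter (fun y => s(x, y) ∈ S ∧ s(x, y) ∉ F),
            c * p ^ (F.card + 1) * (D * p) ^ l := by
          refine Finset.sum_le_sum fun y hy => ?_
          rw [Finset.mem_filter] at hy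
          have := ih (insert s(x, y) F) y (by
            intro e he
            rcases Finset.mem_insert.1 he with rfl | he
            · exact hy.2.1
            · exact hF e he)
          rwa [Finset.card_insert_of_notMem hy.2.2] at this
      _ = ((N x).filter (fun y => s(x, y) ∈ S ∧ s(x, y) ∉ F)).card *
            (c * p ^ (F.card + 1) * (D * p) ^ l) := by
          rw [Finset.sum_const, nsmul_eq_mul]
      _ ≤ D * (c * p ^ (F.card + 1) * (D * p) ^ l) := by
          gcongr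
          exact_mod_cast (Finset.card_filter_le _ _).trans (hD x)
      _ = c * p ^ F.card * (D * p) ^ (l + 1) := by ring

lemma measure_longTrail_empty_le (P : Measure (Sym2 W → Bool)) (N : W → Finset W) (D : ℕ)
    (hN : ∀ x y, G.Adj x y → y ∈ N x) (hD : ∀ x, (N x).card ≤ D)
    (S : Set (Sym2 W)) (B : Set (Sym2 W → Bool)) (c p : ℝ≥0∞)
    (hB : ∀ F : Finset (Sym2 W), (∀ e ∈ F, e ∈ S) → P (B ∩ allEq F true) ≤ c * p ^ F.card)
    (l : ℕ) (x : W) : P (B ∩ longTrail G S ∅ x l) ≤ c * (D * p) ^ l := by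
  have h := measure_longTrail_le G P N D hN hD S B c p hB l ∅ x (by simp)
  have h0 : allEq (∅ : Finset (Sym2 W)) true = univ := by ext ω; simp [allEq]
  simpa [h0] using h

/-- The graph of open edges of `G` lying in `S`. -/
def subOpen (S : Set (Sym2 W)) (ω : Sym2 W → Bool) : SimpleGraph W :=
  G ⊓ SimpleGraph.fromEdgeSet {e | e ∈ S ∧ ω e = true}

lemma subOpen_adj (S : Set (Sym2 W)) (ω : Sym2 W → Bool) (x y : W) :
    (subOpen G S ω).Adj x y ↔ G.Adj x y ∧ s(x, y) ∈ S ∧ ω s(x, y) = true := by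
  simp only [subOpen, SimpleGraph.inf_adj, SimpleGraph.fromEdgeSet_adj, mem_ofPred_eq]
  constructor
  · rintro ⟨h1, h2, _⟩; exact ⟨h1, h2⟩
  · rintro ⟨h1, h2⟩; exact ⟨h1, h2, h1.ne⟩

/-- If `y` is reachable from `x` by open `S`-edges and every `G`-walk from `x` to `y` is long,
there is a long open trail. -/
lemma mem_longTrail_of_reachable (S : Set (Sym2 W)) (ω : Sym2 W → Bool) {x y : W} {l : ℕ}
    (h : (subOpen G S ω).Reachable x y) (hl : ∀ w : G.Walk x y, l ≤ w.length) :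
    ω ∈ longTrail G S ∅ x l := by
  classical
  obtain ⟨w⟩ := h
  have hle : subOpen G S ω ≤ G := inf_le_left
  refine ⟨y, w.bypass.mapLe hle, hl _, ?_, ?_⟩
  · exact (w.bypass_isPath.mapLe hle).isTrail
  · intro e he
    rw [SimpleGraph.Walk.edges_mapLe_eq_edges] at he
    have he' := w.bypass.edges_subset_edgeSet he
    induction e using Sym2.ind with
    | _ a b =>
      rw [SimpleGraph.mem_edgeSet, subOpen_adj] at he'
      exact ⟨he'.2.1, by simp, he'.2.2⟩

lemma finite_ball (N : W → Finset W) (hN : ∀ x y, G.Adj x y → y ∈ N x) (l : ℕ) :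
    ∀ x : W, Set.Finite {y | ∃ w : G.Walk x y, w.length ≤ l} := by
  induction l with
  | zero =>
    intro x
    refine (Set.finite_singleton x).subset ?_
    rintro y ⟨w, hw⟩
    exact (SimpleGraph.Walk.eq_of_length_eq_zero (p := w) (by omega)).symm
  | succ l ih =>
    intro x
    refine ((Set.finite_singleton x).union
      ((N x).finite_toSet.biUnion fun z _ => ih z)).subset ?_
    rintro y ⟨w, hw⟩
    cases w with
    | nil => left; rfl
    | @cons _ z _ hxz w' =>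
      right
      simp only [SimpleGraph.Walk.length_cons] at hw
      simp only [mem_iUnion]
      exact ⟨z, hN x z hxz, w', by omega⟩

lemma mem_longTrail_of_infinite (N : W → Finset W) (hN : ∀ x y, G.Adj x y → y ∈ N x)
    (S : Set (Sym2 W)) (ω : Sym2 W → Bool) {x : W}
    (h : Set.Infinite {y | (subOpen G S ω).Reachable x y}) (l : ℕ) :
    ω ∈ longTrail G S ∅ x l := by
  obtain ⟨y, hy, hy'⟩ := h.exists_notMem_finite (finite_ball G N hN l x)
  refine mem_longTrail_of_reachable G S ω hy fun w => ?_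
  by_contra hc
  exact hy' ⟨w, by omega⟩

/-- Subcriticality by path counting. -/
lemma measure_infinite_subOpen (prob : Sym2 W → unitInterval) (N : W → Finset W) (D : ℕ)
    (hN : ∀ x y, G.Adj x y → y ∈ N x) (hD : ∀ x, (N x).card ≤ D)
    (S : Set (Sym2 W)) {p : unitInterval} (hS : ∀ e ∈ S, prob e = p)
    (hp : (D : ℝ≥0∞) * (unitInterval.toNNReal p : ℝ≥0∞) < 1) (x : W) :
    PB prob {ω | Set.Infinite {y | (subOpen G S ω).Reachable x y}} = 0 := by
  have hb : ∀ l : ℕ, PB prob {ω | Set.Infinite {y | (subOpen G S ω).Reachable x y}} ≤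
      ((D : ℝ≥0∞) * (unitInterval.toNNReal p : ℝ≥0∞)) ^ l := by
    intro l
    have h := measure_longTrail_empty_le G (PB prob) N D hN hD S univ 1
      (unitInterval.toNNReal p : ℝ≥0∞) (fun F hF => by
        rw [PB_inter_allEq_true prob hS MeasurableSet.univ F hF]; simp) l x
    rw [univ_inter, one_mul] at h
    exact (measure_mono fun ω hω => mem_longTrail_of_infinite G N hN S ω hω l).trans h
  have ht := ENNReal.tendsto_pow_atTop_nhds_zero_of_lt_one hp
  exact le_antisymm (ge_of_tendsto' ht hb) (zero_le)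

end Paths

end Pool.Agent.Lib.MP_c59c01_pr
end

-- part Pool.Agent.Lib.MP_c59c01_pr.Geometry
section

/-!
Geometry of the stack of boxes and the deterministic cut lemma.
-/

set_option autoImplicit false

open Set

namespace Pool.Agent.Lib.MP_c59c01_pr

/-- A finite set containing all lattice neighbours of `x`. -/
noncomputable def nbr {m : ℕ} (x : Vtx m) : Finset (Vtx m) :=
  (Fintype.piFinset fun i => Finset.Icc (x.1 i - 1) (x.1 i + 1)) ×ˢ Finset.Icc (x.2 - 1) (x.2 + 1)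

lemma natAbs_le_l1 {m : ℕ} (x : Fin m → ℤ) (i : Fin m) : (x i).natAbs ≤ l1 x :=
  Finset.single_le_sum (f := fun i => (x i).natAbs) (fun _ _ => Nat.zero_le _) (Finset.mem_univ i)

lemma lattice_adj {m : ℕ} (x y : Vtx m) :
    (lattice m).Adj x y ↔ l1 (x.1 - y.1) + (x.2 - y.2).natAbs = 1 := Iff.rfl

lemma mem_nbr {m : ℕ} (x y : Vtx m) (h : (lattice m).Adj x y) : y ∈ nbr x := by
  rw [lattice_adj] at h
  simp only [nbr, Finset.mem_product, Fintype.mem_piFinset, Finset.mem_Icc]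
  refine ⟨fun i => ?_, by omega⟩
  have := natAbs_le_l1 (x.1 - y.1) i
  simp only [Pi.sub_apply] at this
  omega

lemma card_nbr {m : ℕ} (x : Vtx m) : (nbr x).card ≤ 3 ^ (m + 1) := by
  simp only [nbr, Finset.card_product, Fintype.card_piFinset, Int.card_Icc]
  have h : ∀ a : ℤ, (a + 1 + 1 - (a - 1)).toNat = 3 := fun a => by omega
  simp [h, pow_succ]

lemma adj_height {m : ℕ} {x y : Vtx m} (h : (lattice m).Adj x y) :
    (x.2 - y.2).natAbs ≤ 1 := by
  rw [lattice_adj] at h; omega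

lemma height_le_length {m : ℕ} {x y : Vtx m} (w : (lattice m).Walk x y) :
    (x.2 - y.2).natAbs ≤ w.length := by
  induction w with
  | nil => simp
  | cons h w ih =>
    have := adj_height h
    simp only [SimpleGraph.Walk.length_cons]
    omega

/-- A finite set containing the box `B(a,r)`. -/
noncomputable def boxF (m : ℕ) (a : ℤ) (r : ℕ) : Finset (Vtx m) :=
  (Fintype.piFinset fun _ => Finset.Icc (-(r : ℤ)) r) ×ˢ Finset.Icc (a - r) (a + r)

lemma mem_boxF {m : ℕ} {a : ℤ} {r : ℕ} {v : Vtx m} (h : v ∈ box m a r) : v ∈ boxF m a r := by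
  obtain ⟨h1, h2, h3⟩ := h
  simp only [boxF, Finset.mem_product, Fintype.mem_piFinset, Finset.mem_Icc]
  refine ⟨fun i => ?_, h2, h3⟩
  have := natAbs_le_l1 v.1 i
  omega

lemma height_of_mem_boxF {m : ℕ} {a : ℤ} {r : ℕ} {v : Vtx m} (h : v ∈ boxF m a r) :
    a - r ≤ v.2 ∧ v.2 ≤ a + r := by
  simp only [boxF, Finset.mem_product, Fintype.mem_piFinset, Finset.mem_Icc] at h
  exact h.2

lemma card_boxF (m : ℕ) (a : ℤ) (r : ℕ) : (boxF m a r).card = (2 * r + 1) ^ (m + 1) := by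
  simp only [boxF, Finset.card_product, Fintype.card_piFinset, Int.card_Icc]
  have h1 : ((r : ℤ) + 1 - -(r : ℤ)).toNat = 2 * r + 1 := by omega
  have h2 : (a + r + 1 - (a - r)).toNat = 2 * r + 1 := by omega
  rw [h1, h2]
  simp [pow_succ]

lemma center_succ (X : ℤ → ℕ) (n : ℤ) :
    center X (n + 1) = center X n + X n + X (n + 1) := by
  unfold center
  rcases lt_trichotomy n 0 with hn | rfl | hn
  · rcases eq_or_lt_of_le (show n + 1 ≤ 0 by omega) with h | h
    · have hn' : n = -1 := by omega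
      subst hn'
      have : Finset.Ioo (-1 : ℤ) 0 = ∅ := by
        ext x; simp only [Finset.mem_Ioo, Finset.notMem_empty, iff_false]; omega
      simp [this]
    · rw [if_neg (by omega), if_pos h, if_neg (by omega), if_pos hn]
      have : Finset.Ioo n 0 = insert (n + 1) (Finset.Ioo (n + 1) 0) := by
        ext x; simp only [Finset.mem_Ioo, Finset.mem_insert]; omega
      rw [this, Finset.sum_insert (by simp)]
      ring
  · have : Finset.Ioo (0 : ℤ) 1 = ∅ := by
      ext x; simp only [Finset.mem_Ioo, Finset.notMem_empty, iff_false]; omega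
    simp [this]
  · rw [if_pos (by omega), if_pos hn]
    have : Finset.Ioo 0 (n + 1) = insert n (Finset.Ioo 0 n) := by
      ext x; simp only [Finset.mem_Ioo, Finset.mem_insert]; omega
    rw [this, Finset.sum_insert (by simp)]
    ring

/-- The height of the bottom face of box `n`. -/
noncomputable def bot (X : ℤ → ℕ) (n : ℤ) : ℤ := center X n - X n

lemma bot_succ (X : ℤ → ℕ) (n : ℤ) : bot X (n + 1) = center X n + X n := by
  unfold bot; rw [center_succ]; ring

lemma bot_add_le {X : ℤ → ℕ} (hX : ∀ i, 1 ≤ X i) (n : ℤ) (j : ℕ) :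
    bot X n + 2 * j ≤ bot X (n + j) := by
  induction j with
  | zero => simp
  | succ j ih =>
    have h1 := bot_succ X (n + j)
    have h2 := hX (n + j)
    have h3 : n + ((j + 1 : ℕ) : ℤ) = n + j + 1 := by push_cast; ring
    rw [h3, h1]
    unfold bot at ih ⊢
    push_cast
    omega

lemma bot_le_bot {X : ℤ → ℕ} (hX : ∀ i, 1 ≤ X i) {a b : ℤ} (h : a ≤ b) :
    bot X a + 2 * (b - a) ≤ bot X b := by
  have := bot_add_le hX a (b - a).toNat
  have h2 : ((b - a).toNat : ℤ) = b - a := by omega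
  rw [h2] at this
  simpa using this

/-- Box number `n` of the stack. -/
def bx (m : ℕ) (X : ℤ → ℕ) (n : ℤ) : Set (Vtx m) := box m (center X n) (X n)

/-- A finite set containing box number `n` of the stack. -/
noncomputable def bxF (m : ℕ) (X : ℤ → ℕ) (n : ℤ) : Finset (Vtx m) := boxF m (center X n) (X n)

lemma height_of_mem_bxF {m : ℕ} {X : ℤ → ℕ} {n : ℤ} {v : Vtx m} (h : v ∈ bxF m X n) :
    bot X n ≤ v.2 ∧ v.2 ≤ bot X (n + 1) := by
  rw [bot_succ]
  exact height_of_mem_boxF h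

lemma height_of_mem_bx {m : ℕ} {X : ℤ → ℕ} {n : ℤ} {v : Vtx m} (h : v ∈ bx m X n) :
    bot X n ≤ v.2 ∧ v.2 ≤ bot X (n + 1) := height_of_mem_bxF (mem_boxF h)

lemma mem_region_iff {m : ℕ} {X : ℤ → ℕ} {v : Vtx m} : v ∈ region m X ↔ ∃ n, v ∈ bx m X n := by
  simp [region, bx]

lemma zero_mem_bx (m : ℕ) (X : ℤ → ℕ) : (0 : Vtx m) ∈ bx m X 0 := by
  simp [bx, box, center, l1]

/-- The pairs that do not have both endpoints in the region. -/
def outE (m : ℕ) (X : ℤ → ℕ) : Set (Sym2 (Vtx m)) := {e | ¬ ∀ v ∈ e, v ∈ region m X}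

/-- The boxes below `n`. -/
def low (m : ℕ) (X : ℤ → ℕ) (n : ℤ) : Set (Vtx m) := {v | ∃ a < n, v ∈ bx m X a}

/-- The boxes from `n` on. -/
def high (m : ℕ) (X : ℤ → ℕ) (n : ℤ) : Set (Vtx m) := {v | ∃ b, n ≤ b ∧ v ∈ bx m X b}

open Classical in
/-- The region edges with an endpoint in one of the boxes `n, ..., n + k - 1`. -/
noncomputable def cutE (m : ℕ) (X : ℤ → ℕ) (n : ℤ) (k : ℕ) : Finset (Sym2 (Vtx m)) :=
  (((Finset.range k).biUnion fun i => bxF m X (n + i)).biUnion fun x =>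
    (nbr x).image fun y => s(x, y)).filter fun e => ∀ v ∈ e, v ∈ region m X

/-- An open path outside the region joins the boxes below `n` to the boxes from `n + k` on. -/
def bypass (m : ℕ) (X : ℤ → ℕ) (n : ℤ) (k : ℕ) : Set (Sym2 (Vtx m) → Bool) :=
  {ω | ∃ x ∈ low m X n, ∃ y ∈ high m X (n + k),
    (subOpen (lattice m) (outE m X) ω).Reachable x y}

/-- The cut event. -/
def cutEv (m : ℕ) (X : ℤ → ℕ) (n : ℤ) (k : ℕ) : Set (Sym2 (Vtx m) → Bool) :=
  allEq (cutE m X n k) false \ bypass m X n k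

lemma openGraph_adj {m : ℕ} (ω : Sym2 (Vtx m) → Bool) (x y : Vtx m) :
    (openGraph ω).Adj x y ↔ (lattice m).Adj x y ∧ ω s(x, y) = true := by
  simp only [openGraph, SimpleGraph.inf_adj, SimpleGraph.fromEdgeSet_adj, mem_ofPred_eq]
  constructor
  · rintro ⟨h1, h2, _⟩; exact ⟨h1, h2⟩
  · rintro ⟨h1, h2⟩; exact ⟨h1, h2, h1.ne⟩

lemma mem_cutE {m : ℕ} {X : ℤ → ℕ} {n : ℤ} {k : ℕ} {x y : Vtx m} (hxy : (lattice m).Adj x y)
    (hR : ∀ v ∈ s(x, y), v ∈ region m X) {i : ℤ} (h1 : n ≤ i) (h2 : i < n + k)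
    (hx : x ∈ bx m X i) : s(x, y) ∈ cutE m X n k := by
  classical
  simp only [cutE, Finset.mem_filter, Finset.mem_biUnion, Finset.mem_image, Finset.mem_range]
  refine ⟨⟨x, ⟨(i - n).toNat, by omega, ?_⟩, y, mem_nbr x y hxy, rfl⟩, hR⟩
  have : n + ((i - n).toNat : ℤ) = i := by omega
  rw [this]
  exact mem_boxF hx

lemma reachable_induction {W : Type} {H : SimpleGraph W} {p : W → Prop}
    (hp : ∀ v v', p v → H.Adj v v' → p v') {x y : W} (h : H.Reachable x y) (hx : p x) : p y := by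
  obtain ⟨w⟩ := h
  induction w with
  | nil => exact hx
  | cons h w ih => exact ih (hp _ _ hx h)

/-- On the cut event no open path joins the lower boxes to the upper boxes. -/
lemma not_reachable_of_cut {m : ℕ} {X : ℤ → ℕ} (hX : ∀ i, 1 ≤ X i) {n : ℤ} {k : ℕ} (hk : 1 ≤ k)
    {ω : Sym2 (Vtx m) → Bool} (hω : ω ∈ cutEv m X n k) {x y : Vtx m} (hx : x ∈ low m X n)
    (hy : y ∈ high m X (n + k)) : ¬ (openGraph ω).Reachable x y := by
  intro h
  obtain ⟨hQ, hB⟩ := hω
  have key : ∃ u ∈ low m X n, (subOpen (lattice m) (outE m X) ω).Reachable u y := by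
    refine reachable_induction
      (p := fun v => ∃ u ∈ low m X n, (subOpen (lattice m) (outE m X) ω).Reachable u v)
      ?_ h ⟨x, hx, SimpleGraph.Reachable.refl _⟩
    rintro v v' ⟨u, hu, huv⟩ hvv'
    rw [openGraph_adj] at hvv'
    by_cases hS : s(v, v') ∈ outE m X
    · exact ⟨u, hu, huv.trans
        (SimpleGraph.Adj.reachable ((subOpen_adj _ _ _ _ _).2 ⟨hvv'.1, hS, hvv'.2⟩))⟩
    · have hR : ∀ z ∈ s(v, v'), z ∈ region m X := by
        by_contra hc; exact hS hc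
      have hR' : ∀ z ∈ s(v', v), z ∈ region m X := by
        rw [Sym2.eq_swap]; exact hR
      obtain ⟨i, hi⟩ := mem_region_iff.1 (hR v (by simp))
      obtain ⟨j, hj⟩ := mem_region_iff.1 (hR v' (by simp))
      have hi1 : i < n := by
        by_contra hc
        by_cases hc2 : i < n + k
        · have := hQ _ (mem_cutE hvv'.1 hR (by omega) hc2 hi)
          rw [hvv'.2] at this; exact absurd this (by simp)
        · exact hB ⟨u, hu, v, ⟨i, by omega, hi⟩, huv⟩
      have hj1 : j < n := by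
        by_contra hc
        by_cases hc2 : j < n + k
        · have := hQ _ (mem_cutE hvv'.1.symm hR' (by omega) hc2 hj)
          rw [Sym2.eq_swap, hvv'.2] at this; exact absurd this (by simp)
        · have a1 := (height_of_mem_bx hi).2
          have a2 := (height_of_mem_bx hj).1
          have a3 := bot_le_bot hX (show i + 1 ≤ j by omega)
          have a4 := adj_height hvv'.1
          omega
      exact ⟨v', ⟨j, hj1, hj⟩, SimpleGraph.Reachable.refl _⟩
  obtain ⟨u, hu, huy⟩ := key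
  exact hB ⟨u, hu, y, hy, huy⟩

/-- Two cuts and finite outside clusters make the cluster of the origin finite. -/
lemma finite_of_cuts {m : ℕ} {X : ℤ → ℕ} (hX : ∀ i, 1 ≤ X i) {n n' : ℤ} {k k' : ℕ}
    (hk : 1 ≤ k) (hk' : 1 ≤ k') (hn : 1 ≤ n) (hn' : n' + k' ≤ 0)
    {ω : Sym2 (Vtx m) → Bool} (hω : ω ∈ cutEv m X n k) (hω' : ω ∈ cutEv m X n' k')
    (hfin : ∀ x, Set.Finite {y | (subOpen (lattice m) (outE m X) ω).Reachable x y}) :
    Set.Finite {y | (openGraph ω).Reachable 0 y} := by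
  have h0l : (0 : Vtx m) ∈ low m X n := ⟨0, by omega, zero_mem_bx m X⟩
  have h0h : (0 : Vtx m) ∈ high m X (n' + k') := ⟨0, hn', zero_mem_bx m X⟩
  have hF : Set.Finite (⋃ i ∈ Finset.Ico n' (n + k), ⋃ u ∈ bxF m X i,
      {y | (subOpen (lattice m) (outE m X) ω).Reachable u y}) :=
    (Finset.Ico n' (n + k)).finite_toSet.biUnion fun i _ =>
      (bxF m X i).finite_toSet.biUnion fun u _ => hfin u
  refine hF.subset fun y hy => ?_
  have key : (openGraph ω).Reachable 0 y ∧ ∃ u, (openGraph ω).Reachable 0 u ∧ u ∈ region m X ∧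
      (subOpen (lattice m) (outE m X) ω).Reachable u y := by
    refine reachable_induction
      (p := fun v => (openGraph ω).Reachable 0 v ∧ ∃ u, (openGraph ω).Reachable 0 u ∧
        u ∈ region m X ∧ (subOpen (lattice m) (outE m X) ω).Reachable u v)
      ?_ hy ⟨SimpleGraph.Reachable.refl _, 0, SimpleGraph.Reachable.refl _,
        mem_region_iff.2 ⟨0, zero_mem_bx m X⟩, SimpleGraph.Reachable.refl _⟩
    rintro v v' ⟨h0v, u, h0u, huR, huv⟩ hvv'
    have h0v' := h0v.trans hvv'.reachable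
    refine ⟨h0v', ?_⟩
    rw [openGraph_adj] at hvv'
    by_cases hS : s(v, v') ∈ outE m X
    · exact ⟨u, h0u, huR, huv.trans
        (SimpleGraph.Adj.reachable ((subOpen_adj _ _ _ _ _).2 ⟨hvv'.1, hS, hvv'.2⟩))⟩
    · have hR : ∀ z ∈ s(v, v'), z ∈ region m X := by
        by_contra hc; exact hS hc
      exact ⟨v', h0v', hR v' (by simp), SimpleGraph.Reachable.refl _⟩
  obtain ⟨-, u, h0u, huR, huy⟩ := key
  obtain ⟨i, hi⟩ := mem_region_iff.1 huR
  have h1 : i < n + k := by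
    by_contra hc
    exact not_reachable_of_cut hX hk hω h0l ⟨i, by omega, hi⟩ h0u
  have h2 : n' ≤ i := by
    by_contra hc
    exact not_reachable_of_cut hX hk' hω' ⟨i, by omega, hi⟩ h0h h0u.symm
  simp only [mem_iUnion]
  exact ⟨i, Finset.mem_Ico.2 ⟨h2, h1⟩, u, mem_boxF hi, huy⟩

lemma card_cutE_le {m : ℕ} {X : ℤ → ℕ} {n : ℤ} {k K : ℕ} (hK : ∀ i < k, X (n + (i : ℕ)) ≤ K) :
    (cutE m X n k).card ≤ k * (2 * K + 1) ^ (m + 1) * 3 ^ (m + 1) := by
  classical
  unfold cutE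
  refine (Finset.card_filter_le _ _).trans ?_
  refine (Finset.card_biUnion_le_card_mul _ _ (3 ^ (m + 1)) fun x _ =>
    Finset.card_image_le.trans (card_nbr x)).trans ?_
  gcongr
  refine (Finset.card_biUnion_le_card_mul _ _ ((2 * K + 1) ^ (m + 1)) fun i hi => ?_).trans
    (by simp)
  rw [bxF, card_boxF]
  have := hK i (Finset.mem_range.1 hi)
  gcongr

lemma height_of_mem_cutE {m : ℕ} {X : ℤ → ℕ} (hX : ∀ i, 1 ≤ X i) {n : ℤ} {k : ℕ}
    {e : Sym2 (Vtx m)} (he : e ∈ cutE m X n k) :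
    (∃ x ∈ e, bot X n ≤ x.2) ∧ ∀ y ∈ e, y.2 ≤ bot X (n + k) + 1 := by
  classical
  simp only [cutE, Finset.mem_filter, Finset.mem_biUnion, Finset.mem_image,
    Finset.mem_range] at he
  obtain ⟨⟨x, ⟨i, hi, hx⟩, y, hy, rfl⟩, -⟩ := he
  have a1 := height_of_mem_bxF hx
  have a2 := bot_le_bot hX (show n ≤ n + i by omega)
  have a3 := bot_le_bot hX (show n + i + 1 ≤ n + k by omega)
  simp only [nbr, Finset.mem_product, Finset.mem_Icc] at hy
  refine ⟨⟨x, by simp, by omega⟩, ?_⟩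
  intro z hz
  rcases Sym2.mem_iff.1 hz with rfl | rfl <;> omega

lemma disjoint_cutE {m : ℕ} {X : ℤ → ℕ} (hX : ∀ i, 1 ≤ X i) {n n' : ℤ} {k : ℕ}
    (h : n + k + 1 ≤ n') : Disjoint (cutE m X n k) (cutE m X n' k) := by
  rw [Finset.disjoint_left]
  intro e he he'
  obtain ⟨x, hx, hx'⟩ := (height_of_mem_cutE hX he').1
  have a1 := (height_of_mem_cutE hX he).2 x hx
  have a2 := bot_le_bot hX (show n + k ≤ n' by omega)
  omega

lemma not_mem_outE_of_mem_cutE {m : ℕ} {X : ℤ → ℕ} {n : ℤ} {k : ℕ} {e : Sym2 (Vtx m)}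
    (he : e ∈ cutE m X n k) : e ∉ outE m X := by
  classical
  simp only [cutE, Finset.mem_filter] at he
  exact fun h => h he.2

end Pool.Agent.Lib.MP_c59c01_pr
end

-- part Pool.Agent.Lib.MP_c59c01_pr.Quenched
section

/-!
The quenched estimate: in a good environment there is no percolation.
-/

set_option autoImplicit false

open MeasureTheory ProbabilityTheory Set Filter Topology
open scoped ENNReal

namespace Pool.Agent.Lib.MP_c59c01_pr

/-- A good position for a cut. -/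
def Good (X : ℤ → ℕ) (n : ℤ) (k K : ℕ) : Prop :=
  (∀ s t : ℕ, min (X (n - 1 - s)) (X (n + k + t)) ≤ 2 ^ (k + s + t)) ∧
    ∀ i < k, X (n + (i : ℕ)) ≤ K

open Classical in
/-- The edge probabilities of the Stack Model. -/
noncomputable def edgeProb (m : ℕ) (X : ℤ → ℕ) (p q : unitInterval) :
    Sym2 (Vtx m) → unitInterval :=
  fun e => if ∀ v ∈ e, v ∈ region m X then q else p

lemma edgeProb_out {m : ℕ} {X : ℤ → ℕ} (p q : unitInterval) :
    ∀ e ∈ outE m X, edgeProb m X p q e = p := by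
  intro e he
  unfold edgeProb
  exact if_neg he

lemma edgeProb_cut {m : ℕ} {X : ℤ → ℕ} (p q : unitInterval) {n : ℤ} {k : ℕ} :
    ∀ e ∈ cutE m X n k, edgeProb m X p q e = q := by
  intro e he
  have := not_mem_outE_of_mem_cutE he
  unfold edgeProb
  refine if_pos ?_
  by_contra hc
  exact this hc

lemma measure_from_box_le {m : ℕ} {X : ℤ → ℕ} (p q : unitInterval)
    (hp : (2 : ℝ≥0∞) ^ (m + 1) * ((3 ^ (m + 1) : ℕ) * (unitInterval.toNNReal p : ℝ≥0∞)) ≤ 2⁻¹)
    {B : Set (Sym2 (Vtx m) → Bool)} (hB : MeasurableSet[coordAlg (outE m X)ᶜ] B)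
    (a : ℤ) (i : ℕ) (ha : X a ≤ 2 ^ i) :
    PB (edgeProb m X p q) (B ∩ ⋃ x ∈ bxF m X a, longTrail (lattice m) (outE m X) ∅ x i) ≤
      PB (edgeProb m X p q) B * (4 ^ (m + 1) * 2⁻¹ ^ i) := by
  set P := PB (edgeProb m X p q)
  rw [inter_iUnion₂]
  refine (measure_biUnion_finset_le _ _).trans ?_
  have h1 : ∀ x ∈ bxF m X a, P (B ∩ longTrail (lattice m) (outE m X) ∅ x i) ≤
      P B * (((3 ^ (m + 1) : ℕ) : ℝ≥0∞) * (unitInterval.toNNReal p : ℝ≥0∞)) ^ i := fun x _ =>
    measure_longTrail_empty_le (lattice m) P nbr (3 ^ (m + 1)) mem_nbr card_nbr (outE m X) B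
      (P B) _ (fun F hF => (PB_inter_allEq_true _ (edgeProb_out p q) hB F hF).le) i x
  refine (Finset.sum_le_sum h1).trans ?_
  rw [Finset.sum_const, nsmul_eq_mul, bxF, card_boxF]
  have h2 : (((2 * X a + 1) ^ (m + 1) : ℕ) : ℝ≥0∞) ≤ 4 ^ (m + 1) * (2 ^ (m + 1)) ^ i := by
    have h3 : (2 * X a + 1) ^ (m + 1) ≤ 4 ^ (m + 1) * (2 ^ (m + 1)) ^ i := by
      rw [← pow_mul, mul_comm (m + 1) i, pow_mul, ← mul_pow]
      have : 1 ≤ 2 ^ i := Nat.one_le_two_pow
      gcongr
      omega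
    exact_mod_cast h3
  calc (((2 * X a + 1) ^ (m + 1) : ℕ) : ℝ≥0∞) *
        (P B * (((3 ^ (m + 1) : ℕ) : ℝ≥0∞) * (unitInterval.toNNReal p : ℝ≥0∞)) ^ i)
      ≤ (4 ^ (m + 1) * (2 ^ (m + 1)) ^ i) *
        (P B * (((3 ^ (m + 1) : ℕ) : ℝ≥0∞) * (unitInterval.toNNReal p : ℝ≥0∞)) ^ i) := by
        gcongr
    _ = P B * (4 ^ (m + 1) * (2 ^ (m + 1) *
        (((3 ^ (m + 1) : ℕ) : ℝ≥0∞) * (unitInterval.toNNReal p : ℝ≥0∞))) ^ i) := by
        rw [mul_pow (2 ^ (m + 1))]; ring
    _ ≤ P B * (4 ^ (m + 1) * 2⁻¹ ^ i) := by gcongr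

lemma measure_bypass_le {m : ℕ} {X : ℤ → ℕ} (hX : ∀ i, 1 ≤ X i) (p q : unitInterval)
    (hp : (2 : ℝ≥0∞) ^ (m + 1) * ((3 ^ (m + 1) : ℕ) * (unitInterval.toNNReal p : ℝ≥0∞)) ≤ 2⁻¹)
    {B : Set (Sym2 (Vtx m) → Bool)} (hB : MeasurableSet[coordAlg (outE m X)ᶜ] B)
    {n : ℤ} {k K : ℕ} (hG : Good X n k K) :
    PB (edgeProb m X p q) (B ∩ bypass m X n k) ≤
      PB (edgeProb m X p q) B * (4 ^ (m + 1) * 4 * 2⁻¹ ^ k) := by
  set P := PB (edgeProb m X p q)
  have hsub : B ∩ bypass m X n k ⊆ ⋃ s : ℕ, ⋃ t : ℕ, B ∩ {ω | ∃ x ∈ bx m X (n - 1 - s),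
      ∃ y ∈ bx m X (n + k + t), (subOpen (lattice m) (outE m X) ω).Reachable x y} := by
    rintro ω ⟨hωB, x, ⟨a, ha, hx⟩, y, ⟨b, hb, hy⟩, hxy⟩
    simp only [mem_iUnion]
    refine ⟨(n - 1 - a).toNat, (b - (n + k)).toNat, hωB, x, ?_, y, ?_, hxy⟩
    · have : n - 1 - ((n - 1 - a).toNat : ℤ) = a := by omega
      rw [this]; exact hx
    · have : n + k + ((b - (n + k)).toNat : ℤ) = b := by omega
      rw [this]; exact hy
  have hst : ∀ s t : ℕ, P (B ∩ {ω | ∃ x ∈ bx m X (n - 1 - s),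
      ∃ y ∈ bx m X (n + k + t), (subOpen (lattice m) (outE m X) ω).Reachable x y}) ≤
      P B * (4 ^ (m + 1) * 2⁻¹ ^ (k + s + t)) := by
    intro s t
    have hh : ∀ x ∈ bx m X (n - 1 - s), ∀ y ∈ bx m X (n + k + t),
        k + s + t ≤ (x.2 - y.2).natAbs := by
      intro x hx y hy
      have a1 := (height_of_mem_bx hx).2
      have a2 := (height_of_mem_bx hy).1
      have a3 := bot_le_bot hX (show n - 1 - s + 1 ≤ n + k + t by omega)
      omega
    rcases min_le_iff.1 (hG.1 s t) with h | h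
    · refine le_trans (measure_mono ?_) (measure_from_box_le p q hp hB _ _ h)
      rintro ω ⟨hωB, x, hx, y, hy, hxy⟩
      refine ⟨hωB, ?_⟩
      simp only [mem_iUnion]
      exact ⟨x, mem_boxF hx, mem_longTrail_of_reachable _ _ _ hxy fun w =>
        (hh x hx y hy).trans (height_le_length w)⟩
    · refine le_trans (measure_mono ?_) (measure_from_box_le p q hp hB _ _ h)
      rintro ω ⟨hωB, x, hx, y, hy, hxy⟩
      refine ⟨hωB, ?_⟩
      simp only [mem_iUnion]
      refine ⟨y, mem_boxF hy, mem_longTrail_of_reachable _ _ _ hxy.symm fun w => ?_⟩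
      have a1 := hh x hx y hy
      have a2 := height_le_length w
      omega
  refine (measure_mono hsub).trans ((measure_iUnion_le _).trans ?_)
  refine (ENNReal.tsum_le_tsum fun s => (measure_iUnion_le _).trans
    (ENNReal.tsum_le_tsum fun t => hst s t)).trans (le_of_eq ?_)
  have hg : ∑' t : ℕ, (2⁻¹ : ℝ≥0∞) ^ t = 2 := ENNReal.tsum_geometric_two
  calc ∑' (s : ℕ) (t : ℕ), P B * (4 ^ (m + 1) * 2⁻¹ ^ (k + s + t))
      = ∑' (s : ℕ) (t : ℕ), (P B * (4 ^ (m + 1) * 2⁻¹ ^ k)) * 2⁻¹ ^ s * 2⁻¹ ^ t := by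
        refine tsum_congr fun s => tsum_congr fun t => ?_
        rw [pow_add, pow_add]; ring
    _ = ∑' (s : ℕ), (P B * (4 ^ (m + 1) * 2⁻¹ ^ k)) * 2 * 2⁻¹ ^ s := by
        refine tsum_congr fun s => ?_
        rw [ENNReal.tsum_mul_left, hg]; ring
    _ = P B * (4 ^ (m + 1) * 4 * 2⁻¹ ^ k) := by
        rw [ENNReal.tsum_mul_left, hg]; ring

lemma measure_no_cut_le {m : ℕ} {X : ℤ → ℕ} (hX : ∀ i, 1 ≤ X i) (p q : unitInterval)
    (hp : (2 : ℝ≥0∞) ^ (m + 1) * ((3 ^ (m + 1) : ℕ) * (unitInterval.toNNReal p : ℝ≥0∞)) ≤ 2⁻¹)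
    (hq : q < 1) (n : ℕ → ℤ) {k K : ℕ}
    (hsep : Pairwise fun i j => n i + k + 1 ≤ n j ∨ n j + k + 1 ≤ n i)
    (hG : ∀ j, Good X (n j) k K) :
    PB (edgeProb m X p q) (⋂ j, (cutEv m X (n j) k)ᶜ) ≤ 4 ^ (m + 1) * 4 * 2⁻¹ ^ k := by
  set P := PB (edgeProb m X p q)
  set Q : ℕ → Set (Sym2 (Vtx m) → Bool) := fun j => allEq (cutE m X (n j) k) false with hQ
  have hq0 : (unitInterval.toNNReal (unitInterval.symm q) : ℝ≥0∞) ≠ 0 := by
    have h1 : (0 : ℝ) < 1 - (q : ℝ) := by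
      have : (q : ℝ) < 1 := by exact_mod_cast hq
      linarith
    intro h
    have h2 : unitInterval.toNNReal (unitInterval.symm q) = 0 := by exact_mod_cast h
    have h3 : ((unitInterval.toNNReal (unitInterval.symm q) : NNReal) : ℝ) = 1 - (q : ℝ) := rfl
    rw [h2] at h3
    simp at h3
    linarith
  have hq1 : (unitInterval.toNNReal (unitInterval.symm q) : ℝ≥0∞) ≤ 1 := by
    have : unitInterval.toNNReal (unitInterval.symm q) ≤ 1 := (unitInterval.symm q).2.2
    exact_mod_cast this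
  have h0 : P (⋂ j, (Q j)ᶜ) = 0 := by
    refine PB_iInter_compl_allEq_false _ (fun j => cutE m X (n j) k) ?_
      (δ := (unitInterval.toNNReal (unitInterval.symm q) : ℝ≥0∞) ^
        (k * (2 * K + 1) ^ (m + 1) * 3 ^ (m + 1))) (pow_ne_zero _ hq0) fun j => ?_
    · intro i j hij
      rcases hsep hij with h | h
      · exact disjoint_cutE hX h
      · exact (disjoint_cutE hX h).symm
    · rw [PB_allEq_false, Finset.prod_congr rfl
        (g := fun _ => (unitInterval.toNNReal (unitInterval.symm q) : ℝ≥0∞))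
        (fun e he => by rw [edgeProb_cut p q e he]), Finset.prod_const]
      exact pow_le_pow_right_of_le_one' hq1 (card_cutE_le (hG j).2)
  have hQm : ∀ j, MeasurableSet[coordAlg (outE m X)ᶜ] (Q j) := fun j =>
    measurableSet_allEq_coordAlg (fun e he => not_mem_outE_of_mem_cutE he) false
  have hDm : ∀ j, MeasurableSet[coordAlg (outE m X)ᶜ] (disjointed Q j) := fun j =>
    @MeasurableSet.disjointed _ (coordAlg (outE m X)ᶜ) _ hQm j
  have hDm' : ∀ j, MeasurableSet (disjointed Q j) := fun j =>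
    MeasurableSet.disjointed (fun j => measurableSet_allEq _ _) j
  have hsub : (⋂ j, (cutEv m X (n j) k)ᶜ) ⊆
      (⋂ j, (Q j)ᶜ) ∪ ⋃ j, disjointed Q j ∩ bypass m X (n j) k := by
    intro ω hω
    by_cases h : ω ∈ ⋃ j, Q j
    · right
      rw [← iUnion_disjointed] at h
      obtain ⟨j, hj⟩ := mem_iUnion.1 h
      refine mem_iUnion.2 ⟨j, hj, ?_⟩
      by_contra hc
      exact (mem_iInter.1 hω j) ⟨disjointed_subset Q j hj, hc⟩
    · left
      rwa [← compl_iUnion]
  refine (measure_mono hsub).trans ((measure_union_le _ _).trans ?_)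
  rw [h0, zero_add]
  refine (measure_iUnion_le _).trans ?_
  refine (ENNReal.tsum_le_tsum fun j => measure_bypass_le hX p q hp (hDm j) (hG j)).trans ?_
  rw [ENNReal.tsum_mul_right, ← measure_iUnion (disjoint_disjointed Q) hDm']
  exact mul_le_of_le_one_left' prob_le_one

lemma exists_separated {c : ℕ → Prop} (h : ∀ N, ∃ r ≥ N, c r) (k : ℕ) :
    ∃ φ : ℕ → ℕ, (∀ j, c (φ j)) ∧ (∀ j, k + 1 ≤ φ j) ∧ ∀ i j, i < j → φ i + k + 1 ≤ φ j := by
  obtain ⟨ψ, hψ, hc⟩ := extraction_of_frequently_atTop (frequently_atTop.2 h)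
  refine ⟨fun j => ψ ((k + 1) * (j + 1)), fun j => hc _, fun j => ?_, fun i j hij => ?_⟩
  · have := hψ.le_apply (x := (k + 1) * (j + 1))
    nlinarith
  · have h1 : ∀ a d : ℕ, ψ a + d ≤ ψ (a + d) := by
      intro a d
      induction d with
      | zero => simp
      | succ d ih =>
        have := hψ (show a + d < a + (d + 1) by omega)
        omega
    have h2 := h1 ((k + 1) * (i + 1)) (k + 1)
    have h3 : (k + 1) * (i + 1) + (k + 1) ≤ (k + 1) * (j + 1) := by nlinarith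
    have h4 := hψ.monotone h3
    show ψ ((k + 1) * (i + 1)) + k + 1 ≤ ψ ((k + 1) * (j + 1))
    omega

lemma eq_zero_of_le_eps {m : ℕ} {x : ℝ≥0∞}
    (h : ∀ J : ℕ, ∃ k ≥ J, x ≤ 4 ^ (m + 1) * 4 * 2⁻¹ ^ k) : x = 0 := by
  have ht : Tendsto (fun k : ℕ => (4 : ℝ≥0∞) ^ (m + 1) * 4 * 2⁻¹ ^ k) atTop (𝓝 0) := by
    have := ENNReal.Tendsto.const_mul (a := (4 : ℝ≥0∞) ^ (m + 1) * 4)
      (ENNReal.tendsto_pow_atTop_nhds_zero_of_lt_one (r := 2⁻¹) (by simp))
      (Or.inr (by finiteness))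
    simpa using this
  exact le_antisymm (ge_of_tendsto_of_frequently ht (frequently_atTop.2 h)) zero_le

/-- No percolation in an environment with infinitely many good positions on both sides. -/
lemma theta_eq_zero {m : ℕ} {X : ℤ → ℕ} (hX : ∀ i, 1 ≤ X i) (p q : unitInterval)
    (hp : (2 : ℝ≥0∞) ^ (m + 1) * ((3 ^ (m + 1) : ℕ) * (unitInterval.toNNReal p : ℝ≥0∞)) ≤ 2⁻¹)
    (hq : q < 1)
    (hup : ∀ J : ℕ, ∃ k ≥ J, ∃ K, ∀ N, ∃ r ≥ N, Good X ((r : ℕ) : ℤ) k K)
    (hdown : ∀ J : ℕ, ∃ k ≥ J, ∃ K, ∀ N, ∃ r ≥ N, Good X (-((r : ℕ) : ℤ)) k K) :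
    theta m X p q = 0 := by
  set P := PB (edgeProb m X p q)
  have hU : P {ω | ¬ ∃ (n : ℤ) (k : ℕ), 1 ≤ k ∧ 1 ≤ n ∧ ω ∈ cutEv m X n k} = 0 := by
    refine eq_zero_of_le_eps (m := m) fun J => ?_
    obtain ⟨k, hk, K, hK⟩ := hup (J + 1)
    obtain ⟨φ, h1, h2, h3⟩ := exists_separated hK k
    refine ⟨k, by omega, le_trans (measure_mono ?_)
      (measure_no_cut_le hX p q hp hq (fun j => (φ j : ℤ)) (k := k) (K := K) ?_ h1)⟩
    · intro ω hω
      refine mem_iInter.2 fun j hj => hω ⟨φ j, k, by omega, ?_, hj⟩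
      have := h2 j
      omega
    · intro i j hij
      rcases lt_or_gt_of_ne hij with h | h
      · left; have := h3 i j h; omega
      · right; have := h3 j i h; omega
  have hD : P {ω | ¬ ∃ (n : ℤ) (k : ℕ), 1 ≤ k ∧ n + k ≤ 0 ∧ ω ∈ cutEv m X n k} = 0 := by
    refine eq_zero_of_le_eps (m := m) fun J => ?_
    obtain ⟨k, hk, K, hK⟩ := hdown (J + 1)
    obtain ⟨φ, h1, h2, h3⟩ := exists_separated hK k
    refine ⟨k, by omega, le_trans (measure_mono ?_)
      (measure_no_cut_le hX p q hp hq (fun j => -(φ j : ℤ)) (k := k) (K := K) ?_ h1)⟩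
    · intro ω hω
      refine mem_iInter.2 fun j hj => hω ⟨-(φ j : ℤ), k, by omega, ?_, hj⟩
      have := h2 j
      omega
    · intro i j hij
      rcases lt_or_gt_of_ne hij with h | h
      · right; have := h3 i j h; omega
      · left; have := h3 j i h; omega
  have hp1 : ((3 ^ (m + 1) : ℕ) : ℝ≥0∞) * (unitInterval.toNNReal p : ℝ≥0∞) < 1 := by
    have h1 : (1 : ℝ≥0∞) ≤ 2 ^ (m + 1) := one_le_pow₀ (by norm_num)
    calc ((3 ^ (m + 1) : ℕ) : ℝ≥0∞) * (unitInterval.toNNReal p : ℝ≥0∞)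
        ≤ 2 ^ (m + 1) * (((3 ^ (m + 1) : ℕ) : ℝ≥0∞) * (unitInterval.toNNReal p : ℝ≥0∞)) :=
          le_mul_of_one_le_left' h1
      _ ≤ 2⁻¹ := hp
      _ < 1 := by simp
  have hI : P (⋃ x, {ω | Set.Infinite {y | (subOpen (lattice m) (outE m X) ω).Reachable x y}})
      = 0 :=
    measure_iUnion_null fun x => measure_infinite_subOpen (lattice m) _ nbr (3 ^ (m + 1))
      mem_nbr card_nbr (outE m X) (edgeProb_out p q) hp1 x
  have hfin := measure_union_null (measure_union_null hU hD) hI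
  refine measure_mono_null ?_ hfin
  intro ω hω
  by_contra hc
  simp only [mem_union, mem_ofPred_eq, mem_iUnion, not_or, not_not] at hc
  obtain ⟨⟨⟨n, k, hk, hn, h1⟩, ⟨n', k', hk', hn', h2⟩⟩, h3⟩ := hc
  refine hω (finite_of_cuts hX hk hk' hn hn' h1 h2 fun x => ?_)
  by_contra h4
  exact h3 ⟨x, h4⟩

/-- A lower bound for the critical point. -/
lemma lt_pc {m : ℕ} (p p' : unitInterval) (hpp : (p : ℝ) < p')
    (hp1 : ((3 ^ (m + 1) : ℕ) : ℝ≥0∞) * (unitInterval.toNNReal p' : ℝ≥0∞) < 1) :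
    (p : ℝ) < pc m := by
  refine lt_of_lt_of_le hpp (le_csSup ⟨1, ?_⟩ ⟨p', rfl, ?_⟩)
  · rintro r ⟨s, rfl, -⟩
    exact s.2.2
  · have h := measure_infinite_subOpen (lattice m) (fun _ => p') nbr (3 ^ (m + 1))
      mem_nbr card_nbr univ (fun _ _ => rfl) hp1 0
    have he : ∀ ω : Sym2 (Vtx m) → Bool, subOpen (lattice m) univ ω = openGraph ω := by
      intro ω
      simp [subOpen, openGraph]
    simp only [he] at h
    exact h

end Pool.Agent.Lib.MP_c59c01_pr
end

-- part Pool.Agent.Lib.MP_c59c01_pr.Env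
section

/-!
The environment: almost surely there are infinitely many good positions, and the law.
-/

set_option autoImplicit false

open MeasureTheory ProbabilityTheory Set Filter Topology
open scoped ENNReal

namespace Pool.Agent.Lib.MP_c59c01_pr

section General

variable (μ : Measure ℕ) [IsProbabilityMeasure μ]

lemma env_pair (a b : ℤ) (hab : a ≠ b) (T : Set ℕ) :
    Measure.infinitePi (fun _ : ℤ => μ) {X | X a ∈ T ∧ X b ∈ T} = μ T ^ 2 := by
  have : {X : ℤ → ℕ | X a ∈ T ∧ X b ∈ T} =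
      Set.pi (({a, b} : Finset ℤ) : Set ℤ) (fun _ => T) := by
    ext X; simp
  rw [this, Measure.infinitePi_pi _ (fun _ _ => MeasurableSet.of_discrete),
    Finset.prod_pair hab, sq]

lemma env_single (a : ℤ) (T : Set ℕ) :
    Measure.infinitePi (fun _ : ℤ => μ) {X | X a ∈ T} = μ T := by
  have : {X : ℤ → ℕ | X a ∈ T} = Set.pi (({a} : Finset ℤ) : Set ℤ) (fun _ => T) := by
    ext X; simp
  rw [this, Measure.infinitePi_pi _ (fun _ _ => MeasurableSet.of_discrete),
    Finset.prod_singleton]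

lemma env_not_good_le (n : ℤ) (J K : ℕ) :
    Measure.infinitePi (fun _ : ℤ => μ) {X | ¬ Good X n (2 ^ J) K} ≤
      ∑' j : ℕ, 4 ^ (j + J + 1) * μ {x | 2 ^ 2 ^ (j + J) < x} ^ 2 +
        (2 ^ J : ℕ) * μ {x | K < x} := by
  set ν := Measure.infinitePi (fun _ : ℤ => μ)
  have hsub : {X : ℤ → ℕ | ¬ Good X n (2 ^ J) K} ⊆
      (⋃ j : ℕ, ⋃ s ∈ Finset.range (2 ^ (j + J + 1)), ⋃ t ∈ Finset.range (2 ^ (j + J + 1)),
        {X | X (n - 1 - s) ∈ {x | 2 ^ 2 ^ (j + J) < x} ∧
          X (n + (2 ^ J : ℕ) + t) ∈ {x | 2 ^ 2 ^ (j + J) < x}}) ∪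
      ⋃ i ∈ Finset.range (2 ^ J), {X | X (n + (i : ℕ)) ∈ {x | K < x}} := by
    intro X hX
    simp only [Good, mem_ofPred_eq, not_and_or, not_forall, not_le] at hX
    rcases hX with ⟨s, t, h⟩ | ⟨i, hi, h⟩
    · left
      have hpos : 2 ^ J + s + t ≠ 0 := by positivity
      have h1 : J ≤ Nat.log 2 (2 ^ J + s + t) :=
        Nat.le_log_of_pow_le (by norm_num) (by omega)
      have h2 : 2 ^ Nat.log 2 (2 ^ J + s + t) ≤ 2 ^ J + s + t := Nat.pow_log_le_self 2 hpos
      have h3 : 2 ^ J + s + t < 2 ^ (Nat.log 2 (2 ^ J + s + t) + 1) :=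
        Nat.lt_pow_succ_log_self (by norm_num) _
      obtain ⟨j, hj⟩ : ∃ j, Nat.log 2 (2 ^ J + s + t) = j + J := ⟨_, (Nat.sub_add_cancel h1).symm⟩
      rw [hj] at h2 h3
      have h4 : 2 ^ 2 ^ (j + J) ≤ 2 ^ (2 ^ J + s + t) := Nat.pow_le_pow_right (by norm_num) h2
      have h5 : 0 < 2 ^ J := by positivity
      simp only [mem_iUnion, Finset.mem_range, mem_ofPred_eq]
      rw [lt_min_iff] at h
      exact ⟨j, s, by omega, t, by omega, by omega, by omega⟩
    · right
      simp only [mem_iUnion, Finset.mem_range, mem_ofPred_eq]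
      exact ⟨i, hi, h⟩
  refine (measure_mono hsub).trans ((measure_union_le _ _).trans (add_le_add ?_ ?_))
  · refine (measure_iUnion_le _).trans (ENNReal.tsum_le_tsum fun j => ?_)
    refine (measure_biUnion_finset_le _ _).trans ?_
    refine (Finset.sum_le_sum fun s _ => measure_biUnion_finset_le _ _).trans (le_of_eq ?_)
    have h : ∀ s t : ℕ, ν {X | X (n - 1 - s) ∈ {x | 2 ^ 2 ^ (j + J) < x} ∧
        X (n + (2 ^ J : ℕ) + t) ∈ {x | 2 ^ 2 ^ (j + J) < x}} = μ {x | 2 ^ 2 ^ (j + J) < x} ^ 2 :=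
      fun s t => env_pair μ _ _ (by
        have : (0 : ℤ) ≤ ((2 ^ J : ℕ) : ℤ) := Int.natCast_nonneg _
        omega) _
    simp only [h, Finset.sum_const, Finset.card_range, nsmul_eq_mul]
    rw [← mul_assoc]
    congr 1
    push_cast
    rw [← mul_pow]; norm_num
  · refine (measure_biUnion_finset_le _ _).trans (le_of_eq ?_)
    have h : ∀ i : ℕ, ν {X | X (n + (i : ℕ)) ∈ {x | K < x}} = μ {x | K < x} :=
      fun i => env_single μ _ _
    simp only [h, Finset.sum_const, Finset.card_range, nsmul_eq_mul]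

lemma tendsto_tail : Tendsto (fun K : ℕ => μ {x | K < x}) atTop (𝓝 0) := by
  have h := tendsto_measure_iInter_atTop (μ := μ) (s := fun K : ℕ => {x | K < x})
    (fun _ => MeasurableSet.of_discrete.nullMeasurableSet)
    (fun a b hab x hx => lt_of_le_of_lt hab hx) ⟨0, measure_ne_top _ _⟩
  have h0 : (⋂ K : ℕ, {x : ℕ | K < x}) = ∅ := by
    ext x
    simp only [mem_iInter, mem_ofPred_eq, mem_empty_iff_false, iff_false, not_forall, not_lt]
    exact ⟨x, le_rfl⟩
  rw [h0, measure_empty] at h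
  exact h

lemma exists_good_params
    (hsum : ∑' j : ℕ, 4 ^ (j + 1) * μ {x | 2 ^ 2 ^ j < x} ^ 2 ≠ ∞)
    {ε : ℝ≥0∞} (hε : 0 < ε) (J₀ : ℕ) :
    ∃ k ≥ J₀, ∃ K, ∀ n, Measure.infinitePi (fun _ : ℤ => μ) {X | ¬ Good X n k K} ≤ ε := by
  have hε2 : 0 < ε / 2 := ENNReal.half_pos hε.ne'
  have h1 := ENNReal.tendsto_sum_nat_add _ hsum
  obtain ⟨J, hJ1, hJ2⟩ := ((h1.eventually (Iic_mem_nhds hε2)).and (eventually_ge_atTop J₀)).exists
  have h2 : Tendsto (fun K : ℕ => ((2 ^ J : ℕ) : ℝ≥0∞) * μ {x | K < x}) atTop (𝓝 0) := by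
    have := ENNReal.Tendsto.const_mul (a := ((2 ^ J : ℕ) : ℝ≥0∞)) (tendsto_tail μ)
      (Or.inr (by finiteness))
    simpa using this
  obtain ⟨K, hK⟩ := (h2.eventually (Iic_mem_nhds hε2)).exists
  refine ⟨2 ^ J, hJ2.trans (Nat.lt_two_pow_self).le, K, fun n => ?_⟩
  refine (env_not_good_le μ n J K).trans ?_
  rw [← ENNReal.add_halves ε]
  exact add_le_add hJ1 hK

lemma ae_good (hsum : ∑' j : ℕ, 4 ^ (j + 1) * μ {x | 2 ^ 2 ^ j < x} ^ 2 ≠ ∞) (c : ℕ → ℤ) :
    ∀ᵐ X ∂(Measure.infinitePi (fun _ : ℤ => μ)),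
      ∀ J : ℕ, ∃ k ≥ J, ∃ K, ∀ N, ∃ r ≥ N, Good X (c r) k K := by
  rw [ae_all_iff]
  intro J
  rw [ae_iff]
  refine le_antisymm (le_of_forall_pos_le_add fun ε hε => ?_) zero_le
  rw [zero_add]
  obtain ⟨k, hk, K, hK⟩ := exists_good_params μ hsum hε J
  have hsub : {X : ℤ → ℕ | ¬ ∃ k ≥ J, ∃ K, ∀ N, ∃ r ≥ N, Good X (c r) k K} ⊆
      ⋃ N : ℕ, {X | ∀ r ≥ N, ¬ Good X (c r) k K} := by
    intro X hX
    by_contra hc
    refine hX ⟨k, hk, K, fun N => ?_⟩
    by_contra hc2
    refine hc (mem_iUnion.2 ⟨N, fun r hr hg => hc2 ⟨r, hr, hg⟩⟩)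
  refine (measure_mono hsub).trans ?_
  have hmono : Monotone fun N : ℕ => {X : ℤ → ℕ | ∀ r ≥ N, ¬ Good X (c r) k K} :=
    fun a b hab X (hX : ∀ r ≥ a, ¬ Good X (c r) k K) r hr => hX r (le_trans hab hr)
  rw [hmono.measure_iUnion]
  refine iSup_le fun N => le_trans (measure_mono ?_) (hK (c N))
  exact fun X (hX : ∀ r ≥ N, ¬ Good X (c r) k K) => hX N le_rfl

lemma ae_pos (h0 : μ {0} = 0) :
    ∀ᵐ X ∂(Measure.infinitePi (fun _ : ℤ => μ)), ∀ i, 1 ≤ X i := by
  rw [ae_all_iff]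
  intro i
  rw [ae_iff]
  have : {X : ℤ → ℕ | ¬ 1 ≤ X i} = {X | X i ∈ ({0} : Set ℕ)} := by
    ext X; simp
  rw [this, env_single, h0]

/-- The general non-percolation criterion at small `p`. -/
theorem ae_theta_eq_zero (h0 : μ {0} = 0)
    (hsum : ∑' j : ℕ, 4 ^ (j + 1) * μ {x | 2 ^ 2 ^ j < x} ^ 2 ≠ ∞) (m : ℕ) :
    ∀ᵐ X ∂(Measure.infinitePi (fun _ : ℤ => μ)), ∀ p q : unitInterval,
      (2 : ℝ≥0∞) ^ (m + 1) * ((3 ^ (m + 1) : ℕ) * (unitInterval.toNNReal p : ℝ≥0∞)) ≤ 2⁻¹ →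
      q < 1 → theta m X p q = 0 := by
  filter_upwards [ae_pos μ h0, ae_good μ hsum (fun r => (r : ℤ)),
    ae_good μ hsum (fun r => -(r : ℤ))] with X h1 h2 h3 p q hp hq
  exact theta_eq_zero h1 p q hp hq h2 h3

end General

section Law

/-- The weights `2^(-(j+1)) / (j+1)`. -/
noncomputable def wt (j : ℕ) : ℝ≥0∞ := 2⁻¹ ^ (j + 1) * ((j + 1 : ℕ) : ℝ≥0∞)⁻¹

/-- The law: mass `wt j` at `2^(2^j)`, the rest at `1`. -/
noncomputable def law : Measure ℕ :=
  (1 - ∑' j, wt j) • Measure.dirac 1 + Measure.sum fun j => wt j • Measure.dirac (2 ^ 2 ^ j)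

lemma tsum_half_succ (a : ℕ) : ∑' j : ℕ, (2⁻¹ : ℝ≥0∞) ^ (j + a + 1) = 2⁻¹ ^ a := by
  have h : ∀ j : ℕ, (2⁻¹ : ℝ≥0∞) ^ (j + a + 1) = (2⁻¹ ^ a * 2⁻¹) * 2⁻¹ ^ j := fun j => by ring
  simp only [h]
  rw [ENNReal.tsum_mul_left, ENNReal.tsum_geometric_two, mul_assoc,
    ENNReal.inv_mul_cancel (by norm_num) (by norm_num), mul_one]

lemma tsum_wt_le : ∑' j, wt j ≤ 1 := by
  calc ∑' j, wt j ≤ ∑' j : ℕ, (2⁻¹ : ℝ≥0∞) ^ (j + 0 + 1) := by
        refine ENNReal.tsum_le_tsum fun j => ?_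
        unfold wt
        refine mul_le_of_le_one_right' ?_
        rw [ENNReal.inv_le_one]
        exact_mod_cast Nat.succ_pos j
    _ = 1 := by rw [tsum_half_succ 0]; simp

lemma law_apply (T : Set ℕ) :
    law T = (1 - ∑' j, wt j) * T.indicator 1 1 + ∑' j, wt j * T.indicator 1 (2 ^ 2 ^ j) := by
  simp [law, Measure.sum_apply _ (MeasurableSet.of_discrete (s := T))]

instance : IsProbabilityMeasure law where
  measure_univ := by
    rw [law_apply]
    simp [tsub_add_cancel_of_le tsum_wt_le]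

lemma law_zero : law {0} = 0 := by
  rw [law_apply]
  simp [Set.indicator]

lemma law_tail (j : ℕ) :
    law {x | 2 ^ 2 ^ j < x} ≤ 2⁻¹ ^ (j + 1) * ((j + 1 : ℕ) : ℝ≥0∞)⁻¹ := by
  rw [law_apply]
  have h1 : ({x : ℕ | 2 ^ 2 ^ j < x}).indicator (1 : ℕ → ℝ≥0∞) 1 = 0 := by
    refine Set.indicator_of_notMem ?_ _
    have : 1 ≤ 2 ^ 2 ^ j := Nat.one_le_two_pow
    simp only [mem_ofPred_eq]; omega
  rw [h1, mul_zero, zero_add]
  rw [← (ENNReal.summable.sum_add_tsum_nat_add' (k := j + 1))]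
  have h2 : ∑ i ∈ Finset.range (j + 1),
      wt i * ({x : ℕ | 2 ^ 2 ^ j < x}).indicator (1 : ℕ → ℝ≥0∞) (2 ^ 2 ^ i) = 0 := by
    refine Finset.sum_eq_zero fun i hi => ?_
    rw [Set.indicator_of_notMem, mul_zero]
    have h3 : 2 ^ i ≤ 2 ^ j := Nat.pow_le_pow_right (by norm_num)
      (by have := Finset.mem_range.1 hi; omega)
    have h4 : 2 ^ 2 ^ i ≤ 2 ^ 2 ^ j := Nat.pow_le_pow_right (by norm_num) h3
    simp only [mem_ofPred_eq]; omega
  rw [h2, zero_add, ← tsum_half_succ (j + 1), ← ENNReal.tsum_mul_right]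
  refine ENNReal.tsum_le_tsum fun i => ?_
  refine (mul_le_of_le_one_right' (Set.indicator_le_self _ (1 : ℕ → ℝ≥0∞) _)).trans ?_
  unfold wt
  gcongr
  omega

lemma law_sum : ∑' j : ℕ, 4 ^ (j + 1) * law {x | 2 ^ 2 ^ j < x} ^ 2 ≠ ∞ := by
  have hs : Summable fun j : ℕ => 1 / (((j + 1 : ℕ) : ℝ)) ^ 2 :=
    (summable_nat_add_iff 1).2 (Real.summable_one_div_nat_pow.2 (by norm_num))
  have h1 := ENNReal.ofReal_tsum_of_nonneg (fun j => by positivity) hs
  refine ne_top_of_le_ne_top (ENNReal.ofReal_ne_top (r := ∑' j : ℕ, 1 / (((j + 1 : ℕ) : ℝ)) ^ 2)) ?_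
  rw [h1]
  refine ENNReal.tsum_le_tsum fun j => ?_
  calc 4 ^ (j + 1) * law {x | 2 ^ 2 ^ j < x} ^ 2
      ≤ 4 ^ (j + 1) * (2⁻¹ ^ (j + 1) * ((j + 1 : ℕ) : ℝ≥0∞)⁻¹) ^ 2 := by
        gcongr; exact law_tail j
    _ = (4 * 2⁻¹ ^ 2) ^ (j + 1) * ((j + 1 : ℕ) : ℝ≥0∞)⁻¹ ^ 2 := by
        rw [mul_pow, mul_pow, ← pow_mul, ← pow_mul, mul_comm (j + 1) 2, mul_assoc]
    _ = ((j + 1 : ℕ) : ℝ≥0∞)⁻¹ ^ 2 := by
        have : (4 : ℝ≥0∞) * 2⁻¹ ^ 2 = 1 := by
          rw [show (4 : ℝ≥0∞) = 2 ^ 2 by norm_num, ← mul_pow,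
            ENNReal.mul_inv_cancel (by norm_num) (by norm_num), one_pow]
        rw [this, one_pow, one_mul]
    _ = ENNReal.ofReal (1 / (((j + 1 : ℕ) : ℝ)) ^ 2) := by
        rw [one_div, ENNReal.ofReal_inv_of_pos (by positivity), ENNReal.ofReal_pow (by positivity),
          ENNReal.ofReal_natCast, ENNReal.inv_pow]

lemma law_log : ∫⁻ x, ENNReal.ofReal (Real.log x) ∂law = ∞ := by
  refine top_unique ?_
  have h1 : ∑' j : ℕ, wt j * ENNReal.ofReal (Real.log ((2 ^ 2 ^ j : ℕ) : ℝ)) ≤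
      ∫⁻ x, ENNReal.ofReal (Real.log x) ∂law := by
    unfold law
    rw [lintegral_add_measure, lintegral_sum_measure]
    refine le_add_left (le_of_eq (tsum_congr fun j => ?_))
    rw [lintegral_smul_measure, lintegral_dirac, smul_eq_mul]
  refine le_trans (le_of_eq ?_) h1
  symm
  have h2 : ∀ j : ℕ, wt j * ENNReal.ofReal (Real.log ((2 ^ 2 ^ j : ℕ) : ℝ)) =
      ENNReal.ofReal (Real.log 2 / 2 * (1 / ((j + 1 : ℕ) : ℝ))) := by
    intro j
    have h3 : wt j = ENNReal.ofReal (2⁻¹ ^ (j + 1) * (((j + 1 : ℕ) : ℝ))⁻¹) := by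
      unfold wt
      rw [ENNReal.ofReal_mul (by positivity), ENNReal.ofReal_pow (by positivity),
        ENNReal.ofReal_inv_of_pos (by positivity), ENNReal.ofReal_inv_of_pos (by positivity),
        ENNReal.ofReal_natCast]
      simp
    rw [h3, ← ENNReal.ofReal_mul (by positivity)]
    congr 1
    rw [Nat.cast_pow, Real.log_pow]
    push_cast
    field_simp
    rw [pow_succ, one_div, inv_pow]
    field_simp
  simp only [h2]
  by_contra hne
  have h4 := ENNReal.summable_toReal hne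
  have hl : 0 < Real.log 2 / 2 := by have := Real.log_pos (show (1 : ℝ) < 2 by norm_num); linarith
  have h5 : ∀ j : ℕ, (ENNReal.ofReal (Real.log 2 / 2 * (1 / ((j + 1 : ℕ) : ℝ)))).toReal =
      Real.log 2 / 2 * (1 / ((j + 1 : ℕ) : ℝ)) := fun j => ENNReal.toReal_ofReal (by positivity)
  simp only [h5] at h4
  rw [summable_mul_left_iff hl.ne'] at h4
  exact Real.not_summable_one_div_natCast ((summable_nat_add_iff 1).1 h4)

end Law

end Pool.Agent.Lib.MP_c59c01_pr
end
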